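import Pool.Agent.U10.Shr.Tw
import Pool.Agent.U10.Shr.Gal

/-!
# One number field controls the groups `Ш¹(O_{K,S}, ℤ_p(r))`, if their ranks are bounded

Fix a prime `p`, an integer `r`, a number field `k` and a set `S` of finite places of `k` (finite and
containing the places over `p` in the problem).  Let `K` run over the finite extensions of `k` in an
algebraic closure and let `s(K)` be the rank of the `ℤ_p`-module `Ш¹(O_{K,S}, ℤ_p(r))`.  By Schneider's
conjecture it is zero (for `r = 1` it is the Leopoldt defect of `K`).  We show: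

1. `s(K) + s(K') ≤ s(K K') + s(K ∩ K')` for all `K`, `K'`, without any assumption.
2. Let `Ω` be any extension of `k`, finite or infinite, for example the algebraic closure of `k`.  The
   ranks `s(K)`, `K ⊆ Ω`, are bounded if and only if there is a finite extension `K₁ ⊆ Ω` with finite
   rank that controls them: `s(K) = s(K ∩ K₁)` for all `K ⊆ Ω`.
3. In this case there is a smallest controlling field `K₀`.  If `Ω` is Galois over `k`, so is `K₀`, and
   the Galois group of `K₀` over `k` is isomorphic to a group of `c × c` matrices over `ℤ/q`, where `c` is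
   the rank of `K₀`, the largest of the ranks, and `q = p` (`q = 4` if `p = 2`).  So the degree of `K₀`
   divides the order of `GL_c(ℤ/q)`.  (If all the ranks are `≤ 1` and `p > 2` then `K₀` is cyclic over
   `k` of degree dividing `p - 1`.)
4. `s(K) = s(k)` for all `K ⊆ Ω` of degree prime to the degree of `K₀`, in the Galois case in particular for
   all `K` of degree prime to the order of `GL_c(ℤ/q)`.

So for each `p` and `r` either the ranks are unbounded, or the counterexamples to the conjecture all come
from one number field of bounded degree.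

Proof.  If `F` is a Galois extension of `k` which contains `K`, then the restriction identifies
`ℚ_p ⊗ Ш¹` of `K` with the invariants of the one of `F` under `Gal(F/K)` (corestriction; the
corestriction of a class satisfies the local conditions after multiplication with the degree).  The
invariants of `Gal(F/K ∩ K')` are the common invariants of `Gal(F/K)` and `Gal(F/K')`; this gives (1).
The fields of maximal rank are closed under intersections, which gives (2) and (3).  The Galois group of
the smallest one acts faithfully on `ℚ_p ⊗ Ш¹`, as the fixed elements of an element `g ≠ 1` are those of a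
smaller field; and a finite group of matrices over `ℤ_p` is isomorphic to its reduction modulo `q`.
-/

open Module

namespace Pool.Agent.Results.MP_59f3ad_nt.ControllingField

open Pool.Agent.U10.Shr

variable {k : Type} [Field k] [NumberField k]

/-- The function `f` on `Gal(k̄/K)` is a coboundary for `ℤ_p(r)` on the intersection with `D`. -/
def CobOn (p : ℕ) [Fact p.Prime] (r : ℤ) (K : IntermediateField k (AlgebraicClosure k))
    (f : K.fixingSubgroup → ℤ_[p]) (D : Subgroup (AlgebraicClosure k ≃ₐ[k] AlgebraicClosure k)) :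
    Prop :=
  ∃ m : ℤ_[p], ∀ σ : K.fixingSubgroup, σ.1 ∈ D → f σ = chi p r σ.1 * m - m

/-- `f` is a continuous cocycle of `Gal(k̄/K)` with values in `ℤ_p(r)`, a coboundary on the inertia
groups outside `S` (so it is zero there, if the places over `p` are in `S`, as these groups act
trivially) and on the decomposition groups of the places over `S` and the archimedean places. -/
def IsShaCocycle (p : ℕ) [Fact p.Prime] (r : ℤ) (S : Set (ValuationSubring k))
    (K : IntermediateField k (AlgebraicClosure k)) (f : K.fixingSubgroup → ℤ_[p]) : Prop :=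
  (∀ σ τ : K.fixingSubgroup, f (σ * τ) = f σ + chi p r σ.1 * f τ) ∧
  Continuous f ∧
  (∀ V : ValuationSubring (AlgebraicClosure k),
    V.comap (algebraMap k (AlgebraicClosure k)) ∉ S → CobOn p r K f (ine k V)) ∧
  (∀ V : ValuationSubring (AlgebraicClosure k),
    V.comap (algebraMap k (AlgebraicClosure k)) ∈ S → CobOn p r K f (dec k V)) ∧
  (∀ φ : AlgebraicClosure k →+* ℂ, CobOn p r K f (arc k φ))

omit [NumberField k] in
theorem isSha_iff (p : ℕ) [Fact p.Prime] (r : ℤ) (S : Set (ValuationSubring k))
    (K : IntermediateField k (AlgebraicClosure k)) (f : K.fixingSubgroup → ℤ_[p]) :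
    IsShaCocycle p r S K f ↔ f ∈ (twData p r S).Z K.fixingSubgroup := by
  constructor
  · rintro ⟨h1, h2, h3, h4, h5⟩
    refine ⟨h1, h2, ?_⟩
    rintro D (⟨V, hV, rfl⟩ | ⟨V, hV, rfl⟩ | ⟨φ, rfl⟩)
    · exact h4 V hV
    · exact h3 V hV
    · exact h5 φ
  · rintro ⟨h1, h2, h3⟩
    exact ⟨h1, h2, fun V hV => h3 _ (Or.inr (Or.inl ⟨V, hV, rfl⟩)),
      fun V hV => h3 _ (Or.inl ⟨V, hV, rfl⟩), fun φ => h3 _ (Or.inr (Or.inr ⟨φ, rfl⟩))⟩

variable {p : ℕ} [Fact p.Prime] {r : ℤ} {S : Set (ValuationSubring k)}
  {K : IntermediateField k (AlgebraicClosure k)}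

theorem isSha_add {f g : K.fixingSubgroup → ℤ_[p]} (hf : IsShaCocycle p r S K f)
    (hg : IsShaCocycle p r S K g) : IsShaCocycle p r S K (f + g) :=
  (isSha_iff p r S K _).2 (add_mem ((isSha_iff p r S K _).1 hf) ((isSha_iff p r S K _).1 hg))

theorem isSha_zero (p : ℕ) [Fact p.Prime] (r : ℤ) (S : Set (ValuationSubring k))
    (K : IntermediateField k (AlgebraicClosure k)) : IsShaCocycle p r S K 0 :=
  (isSha_iff p r S K _).2 (zero_mem _)

theorem isSha_smul (c : ℤ_[p]) {f : K.fixingSubgroup → ℤ_[p]} (hf : IsShaCocycle p r S K f) :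
    IsShaCocycle p r S K (c • f) :=
  (isSha_iff p r S K _).2 (Submodule.smul_mem _ c ((isSha_iff p r S K _).1 hf))

/-- The module of these cocycles. -/
noncomputable def cocycles (p : ℕ) [Fact p.Prime] (r : ℤ) (S : Set (ValuationSubring k))
    (K : IntermediateField k (AlgebraicClosure k)) : Submodule ℤ_[p] (K.fixingSubgroup → ℤ_[p]) where
  carrier := {f | IsShaCocycle p r S K f}
  add_mem' := isSha_add
  zero_mem' := isSha_zero p r S K
  smul_mem' := isSha_smul

/-- The module (spanned by the set) of the coboundaries. -/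
noncomputable def coboundaries (p : ℕ) [Fact p.Prime] (r : ℤ)
    (K : IntermediateField k (AlgebraicClosure k)) : Submodule ℤ_[p] (K.fixingSubgroup → ℤ_[p]) :=
  Submodule.span ℤ_[p] {f | ∃ m : ℤ_[p], ∀ σ : K.fixingSubgroup, f σ = chi p r σ.1 * m - m}

/-- The rank of `Ш¹(O_{K,S}, ℤ_p(r))`: the cocycles modulo the coboundaries. -/
noncomputable def rk (p : ℕ) [Fact p.Prime] (r : ℤ) (S : Set (ValuationSubring k))
    (K : IntermediateField k (AlgebraicClosure k)) : Cardinal :=
  rkQuo (cocycles p r S K) (coboundaries p r K)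

theorem rk_eq (p : ℕ) [Fact p.Prime] (r : ℤ) (S : Set (ValuationSubring k))
    (K : IntermediateField k (AlgebraicClosure k)) : rk p r S K = (twData p r S).crF K := by
  unfold rk
  have h1 : cocycles p r S K = (twData p r S).Z K.fixingSubgroup :=
    Submodule.ext (isSha_iff p r S K)
  have h2 : coboundaries p r K = Bd (tw k p r) K.fixingSubgroup :=
    Submodule.span_eq (Bd (tw k p r) K.fixingSubgroup)
  rw [h1, h2]
  rfl

/-- The field `K₁` controls the ranks over the finite extensions of `k` in `Ω`. -/
def Controls (p : ℕ) [Fact p.Prime] (r : ℤ) (S : Set (ValuationSubring k))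
    (Ω K₁ : IntermediateField k (AlgebraicClosure k)) : Prop :=
  ∀ K ≤ Ω, FiniteDimensional k K → rk p r S K = rk p r S (K ⊓ K₁)

/-- `p`, and `4` if `p = 2`. -/
def modulus (p : ℕ) : ℕ := p ^ (if p = 2 then 2 else 1)

theorem result (p : ℕ) [Fact p.Prime] (r : ℤ) (S : Set (ValuationSubring k)) :
    (∀ K K' : IntermediateField k (AlgebraicClosure k), FiniteDimensional k K →
      FiniteDimensional k K' →
      rk p r S K + rk p r S K' ≤ rk p r S (K ⊔ K') + rk p r S (K ⊓ K')) ∧
    ∀ Ω : IntermediateField k (AlgebraicClosure k),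
      ((∃ m : ℕ, ∀ K ≤ Ω, FiniteDimensional k K → rk p r S K ≤ m) ↔
        ∃ K₁ ≤ Ω, FiniteDimensional k K₁ ∧ rk p r S K₁ < Cardinal.aleph0 ∧
          Controls p r S Ω K₁) ∧
      ((∃ m : ℕ, ∀ K ≤ Ω, FiniteDimensional k K → rk p r S K ≤ m) →
        ∃ K₀ ≤ Ω, FiniteDimensional k K₀ ∧ Controls p r S Ω K₀ ∧
          (∀ K₁ ≤ Ω, FiniteDimensional k K₁ → Controls p r S Ω K₁ → K₀ ≤ K₁) ∧
          (∀ K ≤ Ω, FiniteDimensional k K → Nat.Coprime (finrank k K) (finrank k K₀) →
            rk p r S K = rk p r S ⊥) ∧
          (IsGalois k Ω → IsGalois k K₀ ∧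
            finrank k K₀ ∣ Nat.card (GL (Fin (rk p r S K₀).toNat) (ZMod (modulus p))) ∧
            ∃ φ : (K₀ ≃ₐ[k] K₀) →* GL (Fin (rk p r S K₀).toNat) (ZMod (modulus p)),
              Function.Injective φ)) := by
  have hc : ∀ K, rk p r S K = (twData p r S).crF K := rk_eq p r S
  have hC : ∀ Ω K₁, Controls p r S Ω K₁ ↔ (twData p r S).Ctl Ω K₁ := by
    intro Ω K₁
    simp only [Controls, LocData.Ctl, hc]
  simp only [hc, hC]
  refine ⟨fun K K' h h' => crF_super (twData p r S) K K',
    fun Ω => ⟨bounded_iff (twData p r S) Ω, ?_⟩⟩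
  rintro ⟨m, hm⟩
  obtain ⟨K₀, h1, h2, h3, h4, h5, h6⟩ := smallest (twData p r S) Ω m hm
  refine ⟨K₀, h1, h2, h3, h4, h5, fun hg => ?_⟩
  rw [hc K₀]
  exact h6 hg

end Pool.Agent.Results.MP_59f3ad_nt.ControllingField
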