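import Pool.Agent.Results.MP_59f3ad_nt.CubicFieldsAllTwists
import Pool.Agent.U150.RG.Ei

/-!
# Schneider's conjecture for `p = 3` in the successive prime twists of EVERY field `ℚ(ω, ∛D)`

`K = ℚ(ω)`, `ω² + ω + 1 = 0`, with ring of integers `ℤ[ω]`.  We start with an ARBITRARY
`D = ∏ π_j ^ e_j` with `n` different primes `π_j = 1` modulo `3`, `e_j = 1, 2`; nothing is assumed on the
groups `Ш¹` of `K(∛D)`.  We twist `D` successively by primes `q_k, …, q_1, q_0 = 1` modulo `3` of `ℤ[ω]`,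
which vary in this order.  The lower density of a property of `D' = D q_k^{f_k} ⋯ q_0^{f_0}` is the
iterated one:

`liminf_{X_k → ∞} mean_{q_k} ⋯ liminf_{X_0 → ∞} mean_{q_0} [property of D']`,

the mean over the primes `q_i` with `N(q_i) ≤ X_i`, `N(q_i) = 1 + 3 a_i` modulo `9` (those that divide the
previous element are left out), where `f_i = 1, 2` and the `a_i` are arbitrary numbers such that `N(D')` is
not `1` modulo `9`; the iterated upper mean of a number attached to `D'` is defined in the same way.  Let `A`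
be the symmetric matrix `(e_j χ_{jl} e_l)` over the field with three elements, `(π_l / π_j)_3 = ω ^ χ_{jl}`,
let `P_0(r)` be the share of the diagonal matrices `Y` for which `A + Y` has corank `r`, and let `P_k` be
the law at the time `k` of the Markov chain with the transition probabilities `r → r - 1`: `1 - 3^{-r}`,
`r → r`: `2 · 3^{-(r+1)}`, `r → r + 1`: `3^{-(r+1)}`, started with `P_0`.

* For a lower density of at least `P_k(0)` of the `D'` the following holds: for `L = K(∛D')` and for ALL the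
  cyclic extensions `L` of `K` of degree `3 ^ (m + 1)`, `m` arbitrary, which contain `K(∛D')` and are
  unramified outside `3 D'`, `Ш¹(O_{L,S}, ℤ_3(r)) = 0` for ALL the integers `r ≠ 0` and all `S`.
  And `P_k(0) ≥ (2/3)^{n + k} > 0` for every `D` and `k`.
* For a lower density of at least `P_k(0) + ⋯ + P_k(d)` of the `D'` the ranks of all these groups are at most
  `([L : K] - 1) d`.
* Let `M(D')` be the supremum of the numbers `rank Ш¹(O_{L,S}, ℤ_3(r)) / ([L : K] - 1)` over all these `L`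
  (of arbitrarily large degree) and all `r ≠ 0`.  The iterated upper mean of `M(D')` is at most
  `∑ r P_k(r)`.
* `P_k(0) + ⋯ + P_k(d)` is at least `prob 0 + ⋯ + prob d - 3 (2^n + 1) (2/3)^k`, where
  `prob r = ∏_{i ≥ 0} (1 - 3^{-(2 i + 1)}) / ((3 - 1) (9 - 1) ⋯ (3 ^ r - 1))`, and the upper mean is at most
  `0.4042 + 3 (2^n + 1) (2/3)^k`.
* So for EVERY `D` with `n` prime factors, after `k₀(n)` steps, whatever the `a_i` and `f_i` are: Schneider's
  conjecture holds for `63.9 %` of the `D'` (all `L`, all `r ≠ 0`); all the ranks are at most `[L : K] - 1` for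
  `95.85 %`, and at most `2 ([L : K] - 1)` for `99.8 %` of the `D'`; the upper mean of `M(D')` is at most
  `0.405`.

Proof.  The bounds for one `D'` in terms of the kernel of the Laplacian of the cubic residue symbols are
those of `CubicFieldsAllTwists.lean` (helper848 and others), where the `D` are ordered by the norm.  By cubic
reciprocity and the theorem of Chebotarev (library) a variable prime adds a random row and column to `A`,
and the coranks form a Markov chain which converges exponentially fast: `Pool.Agent.U687.MC` (helper687).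
The properties above are not determined by the corank, so the limits of the means need not exist: one
compares iterated lower and upper limits.
-/

set_option autoImplicit false

namespace Pool.Agent.Results.MP_59f3ad_nt.PrimeTwistsOfEveryField

open Filter Topology Matrix
open Pool.Agent.Results.MP_59f3ad_nt.CubicFieldsAllTwists (QBar OK nr emb K Gal sub ShaZero RankLE
  IsFac IsCyc Unr)
open scoped Classical ENNReal

/-- The primes of `ℤ[ω]` that are `1` modulo `3`, of norm at most `X` and `1 + 3 a` modulo `9`. -/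
def Primes (a : ZMod 3) (X : ℕ) : Set OK :=
  {q : OK | Prime q ∧ (3 : OK) ∣ q - 1 ∧ nr q ≤ X ∧ nr q % 9 = 1 + 3 * (a.val : ℤ)}

/-- The mean of `T q` over the primes `q` of `Primes a X`; the terms of the finitely many `q` that
divide `D` are left out. -/
noncomputable def average (a : ZMod 3) (D : OK) (T : OK → ℝ≥0∞) (X : ℕ) : ℝ≥0∞ :=
  (∑ᶠ q ∈ {q : OK | q ∈ Primes a X ∧ ¬ q ∣ D}, T q) / ((Primes a X).ncard : ℝ≥0∞)

/-- The iterated lower limits of the means of `T` over the `k`-fold prime twists of `D`. -/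
noncomputable def lowerMean (a f : ℕ → ZMod 3) (T : OK → ℝ≥0∞) : ℕ → OK → ℝ≥0∞
  | 0, D => T D
  | k + 1, D => liminf (average (a k) D (fun q => lowerMean a f T k (D * q ^ (f k).val))) atTop

/-- The iterated upper limits of the means of `T` over the `k`-fold prime twists of `D`. -/
noncomputable def upperMean (a f : ℕ → ZMod 3) (T : OK → ℝ≥0∞) : ℕ → OK → ℝ≥0∞
  | 0, D => T D
  | k + 1, D => limsup (average (a k) D (fun q => upperMean a f T k (D * q ^ (f k).val))) atTop

/-- `1` for the `D` with the property `P`, and `0` for the others. -/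
noncomputable def indicator (P : OK → Prop) (D : OK) : ℝ≥0∞ := if P D then 1 else 0

/-- The iterated lower density of the property `P` among the `k`-fold prime twists of `D`. -/
noncomputable def lowerDensity (a f : ℕ → ZMod 3) (P : OK → Prop) (k : ℕ) (D : OK) : ℝ≥0∞ :=
  lowerMean a f (indicator P) k D

/-- The rank of `Ш¹(O_{L,S}, ℤ_3(r))`: the smallest `m` such that any `m + 1` elements are linearly
dependent. -/
noncomputable def rk {w : QBar} (H : Subgroup (Gal w)) (r : ℤ) : ℝ≥0∞ :=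
  ⨅ m ∈ {m : ℕ | RankLE H r m}, (m : ℝ≥0∞)

/-- `L` (the field of `H`) is a cyclic extension of `K` of degree `3 ^ (m + 1)` which contains `K(∛D)`
and is unramified outside `3 D`. -/
def Over {w : QBar} (D : OK) (s : QBar) (m : ℕ) (H : Subgroup (Gal w)) : Prop :=
  IsCyc m H ∧ H ≤ sub w s ∧ Unr D H

/-- `K(∛D)` has degree three over `K`, and for `L = K(∛D)` and for all cyclic extensions `L` of `K` of
degree `3 ^ (m + 1)` which contain `K(∛D)` and are unramified outside `3 D`,
`Ш¹(O_{L,S}, ℤ_3(r)) = 0` for all `r ≠ 0` and all `S`. -/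
def Schneider (D : OK) : Prop :=
  ∀ w s : QBar, w ^ 2 + w + 1 = 0 → s ^ 3 = emb w D → s ∉ K w ∧ ∀ r : ℤ, r ≠ 0 →
    ShaZero (sub w s) r ∧ ∀ (m : ℕ) (H : Subgroup (Gal w)), Over D s m H → ShaZero H r

/-- For `L = K(∛D)` and for all cyclic extensions `L` of `K` which contain `K(∛D)` and are unramified
outside `3 D` the rank of `Ш¹(O_{L,S}, ℤ_3(r))` is at most `([L : K] - 1) d`, for all `r ≠ 0`. -/
def RanksAtMost (d : ℕ) (D : OK) : Prop :=
  ∀ w s : QBar, w ^ 2 + w + 1 = 0 → s ^ 3 = emb w D → s ∉ K w ∧ ∀ r : ℤ, r ≠ 0 →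
    rk (sub w s) r ≤ ((2 * d : ℕ) : ℝ≥0∞) ∧ ∀ (m : ℕ) (H : Subgroup (Gal w)), Over D s m H →
      rk H r ≤ (((3 ^ (m + 1) - 1) * d : ℕ) : ℝ≥0∞)

/-- The supremum of the numbers `rank Ш¹(O_{L,S}, ℤ_3(r)) / ([L : K] - 1)` over all `r ≠ 0` and all
cyclic extensions `L` of `K` of degree a power of `3` which contain `K(∛D)` and are unramified outside
`3 D`. -/
noncomputable def largest (D : OK) : ℝ≥0∞ :=
  sSup {x | ∃ (w s : QBar) (r : ℤ) (m : ℕ) (H : Subgroup (Gal w)), w ^ 2 + w + 1 = 0 ∧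
    s ^ 3 = emb w D ∧ r ≠ 0 ∧ (Over D s m H ∨ (m = 0 ∧ H = sub w s)) ∧
      x = rk H r / ((3 ^ (m + 1) - 1 : ℕ) : ℝ≥0∞)}

/-- The element `ω`. -/
def om : OK := ⟨0, 1⟩

/-- `χ j i` is the cubic residue symbol of `π i` modulo `π j`: `(π i / π j)_3 = ω ^ χ j i`. -/
def IsSymbols {n : ℕ} (π : Fin n → OK) (χ : Fin n → Fin n → ZMod 3) : Prop :=
  ∀ j i, j ≠ i → π j ∣ π i ^ (((nr (π j)).natAbs - 1) / 3) - om ^ (χ j i).val

/-- The matrix of the cubic residue symbols, weighted by the exponents. -/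
def symbols {n : ℕ} (e : Fin n → ZMod 3) (χ : Fin n → Fin n → ZMod 3) :
    Matrix (Fin n) (Fin n) (ZMod 3) :=
  Matrix.of fun j k => e j * χ j k * e k

/-- The share of the diagonal matrices `Y` for which the rank of `A + Y` is `n - r`. -/
noncomputable def share {n : ℕ} (A : Matrix (Fin n) (Fin n) (ZMod 3)) (r : ℕ) : ℝ :=
  (Nat.card {y : Fin n → ZMod 3 // (A + diagonal y).rank + r = n} : ℝ) / 3 ^ n

/-- One step of the Markov chain. -/
noncomputable def markov (μ : ℕ → ℝ) (r : ℕ) : ℝ :=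
  (1 - (1 / 3) ^ (r + 1)) * μ (r + 1) + 2 * (1 / 3) ^ (r + 1) * μ r +
    (if r = 0 then 0 else (1 / 3) ^ r * μ (r - 1))

/-- The law of the Markov chain at the time `k`. -/
noncomputable def chain {n : ℕ} (A : Matrix (Fin n) (Fin n) (ZMod 3)) : ℕ → ℕ → ℝ
  | 0 => share A
  | k + 1 => markov (chain A k)

/-- The norm of `D q_k^{f_k} ⋯ q_0^{f_0}` is not `1` modulo `9` if `N(q_i) = 1 + 3 a_i` modulo `9`. -/
def NotExceptional (a f : ℕ → ZMod 3) (k : ℕ) (D : OK) : Prop :=
  ¬ (9 : ℤ) ∣ nr D * ∏ i ∈ Finset.range (k + 1), (1 + 3 * ((a i).val : ℤ)) ^ (f i).val - 1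

/-- `∏_{i ≥ 0} (1 - 3^{-(2 i + 1)}) / ((3 - 1) (9 - 1) ⋯ (3 ^ r - 1))`. -/
noncomputable def prob (r : ℕ) : ℝ :=
  (∏' i : ℕ, (1 - (1 / 3 : ℝ) ^ (2 * i + 1))) / ∏ i ∈ Finset.range r, ((3 : ℝ) ^ (i + 1) - 1)

section proof

open Pool.Agent.U150.RG
open Pool.Agent.U687.MC hiding prob
open Pool.Agent.Y715.T.Rec (cs)
open Pool.Agent.Y703.CT (Dt pD)
open Pool.Agent.Results.MP_59f3ad_nt.CubicFieldsAllTwists (Sols Inv Bounds sols_eq pq_of)

theorem lower_eq (a f : ℕ → ZMod 3) (T : OK → ℝ≥0∞) (k : ℕ) :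
    ∀ D : OK, lowerMean a f T k D = loE a f T k D := by
  induction k with
  | zero =>
    intro D
    rfl
  | succ k ih =>
    intro D
    show liminf (average (a k) D (fun q => lowerMean a f T k (D * q ^ (f k).val))) atTop =
      liminf (avE (a k) D (fun q => loE a f T k (D * q ^ (f k).val))) atTop
    have h : (fun q => lowerMean a f T k (D * q ^ (f k).val)) =
        fun q => loE a f T k (D * q ^ (f k).val) := funext fun q => ih _
    rw [h]
    rfl

theorem upper_eq (a f : ℕ → ZMod 3) (T : OK → ℝ≥0∞) (k : ℕ) :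
    ∀ D : OK, upperMean a f T k D = upE a f T k D := by
  induction k with
  | zero =>
    intro D
    rfl
  | succ k ih =>
    intro D
    show limsup (average (a k) D (fun q => upperMean a f T k (D * q ^ (f k).val))) atTop =
      limsup (avE (a k) D (fun q => upE a f T k (D * q ^ (f k).val))) atTop
    have h : (fun q => upperMean a f T k (D * q ^ (f k).val)) =
        fun q => upE a f T k (D * q ^ (f k).val) := funext fun q => ih _
    rw [h]
    rfl

theorem chain_eq {n : ℕ} {A : Matrix (Fin n) (Fin n) (ZMod 3)} (hA : A.IsSymm) (k : ℕ) :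
    chain A k = dd k A := by
  induction k with
  | zero =>
    funext r
    exact (dd_zero A r).symm
  | succ k ih =>
    funext r
    rw [dd_succ k hA r, ← ih]
    rfl

theorem fac_of_dt {n : ℕ} {π : Fin n → OK} {e : Fin n → ZMod 3} (h : Dt π e) :
    IsFac π e (pD π e) :=
  ⟨fun i => (h.pq i).prime, fun i => (h.pq i).three, fun i l hil => by
    by_contra hne
    exact h.nd l i (Ne.symm hne) (by rw [hil]), h.e0, rfl⟩

theorem dt_of_fac {n : ℕ} {π : Fin n → OK} {e : Fin n → ZMod 3} {D : OK} (h : IsFac π e D) :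
    Dt π e ∧ D = pD π e := by
  have h1 := Pool.Agent.N848.Sch.pp_of (pq_of h) h.inj
  exact ⟨⟨h1.pq, h1.nd, h.exp⟩, h.prod⟩

theorem inv_of {n : ℕ} {π : Fin n → OK} {e : Fin n → ZMod 3} (h : Dt π e) {r : ℕ}
    (hr : solE π e = 3 ^ (r + 1)) : Inv (pD π e) r := by
  refine ⟨n, π, e, fac_of_dt h, ?_⟩
  rw [sols_eq (fac_of_dt h)]
  exact hr

/-- a congruence modulo `9` -/
theorem not_nine {D : OK} (h : ¬ (9 : ℤ) ∣ nr D - 1) : ¬ (9 : OK) ∣ D - 1 := by
  rintro ⟨q, hq⟩
  apply h
  have hD : D = 1 + 9 * q := by rw [← hq]; ring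
  have a1 : (9 : OK).re = 9 := rfl
  have a2 : (9 : OK).im = 0 := rfl
  have a3 : (1 : OK).re = 1 := rfl
  have a4 : (1 : OK).im = 0 := rfl
  have e1 : D.re = 1 + 9 * q.re := by
    rw [hD, QuadraticAlgebra.re_add, QuadraticAlgebra.re_mul, a1, a2, a3]
    ring
  have e2 : D.im = 9 * q.im := by
    rw [hD, QuadraticAlgebra.im_add, QuadraticAlgebra.im_mul, a1, a2, a4]
    ring
  refine ⟨2 * q.re + 9 * q.re ^ 2 - (1 + 9 * q.re) * q.im + 9 * q.im ^ 2, ?_⟩
  unfold nr
  rw [e1, e2]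
  ring

theorem rk_le {w : QBar} {H : Subgroup (Gal w)} {r : ℤ} {m : ℕ} (h : RankLE H r m) :
    rk H r ≤ (m : ℝ≥0∞) := iInf₂_le m h

/-- the facts for one element -/
theorem facts {D : OK} {r : ℕ} (h : Bounds D r) :
    (r = 0 → Schneider D) ∧ (∀ d, r ≤ d → RanksAtMost d D) ∧ largest D ≤ (r : ℝ≥0∞) := by
  refine ⟨fun h0 w s hw hs => ?_, fun d hd w s hw hs => ?_, ?_⟩
  · obtain ⟨h1, h2⟩ := h w s hw hs
    refine ⟨h1, fun r' hr' => ?_⟩
    obtain ⟨⟨-, h3⟩, h4⟩ := h2 r' hr'
    exact ⟨h3 h0, fun m H hO => (h4 m H hO.1 hO.2.1 hO.2.2).2 h0⟩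
  · obtain ⟨h1, h2⟩ := h w s hw hs
    refine ⟨h1, fun r' hr' => ?_⟩
    obtain ⟨⟨h3, -⟩, h4⟩ := h2 r' hr'
    refine ⟨(rk_le h3).trans (Nat.cast_le.2 (by omega)), fun m H hO =>
      (rk_le (h4 m H hO.1 hO.2.1 hO.2.2).1).trans (Nat.cast_le.2 (Nat.mul_le_mul_left _ hd))⟩
  · refine sSup_le ?_
    rintro x ⟨w, s, r', m, H, hw, hs, hr', hO, rfl⟩
    obtain ⟨-, h2⟩ := h w s hw hs
    have h3 : rk H r' ≤ (((3 ^ (m + 1) - 1) * r : ℕ) : ℝ≥0∞) := by
      rcases hO with hO | ⟨rfl, rfl⟩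
      · exact rk_le ((h2 r' hr').2 m H hO.1 hO.2.1 hO.2.2).1
      · exact rk_le (h2 r' hr').1.1
    refine ENNReal.div_le_of_le_mul (h3.trans (le_of_eq ?_))
    rw [Nat.cast_mul, mul_comm]

section one
variable {a f : ℕ → ZMod 3} (hf : ∀ i, f i ≠ 0) {D : OK} {n : ℕ} {π : Fin n → OK}
  {e : Fin n → ZMod 3} {χ : Fin n → Fin n → ZMod 3} (h : IsFac π e D) (hχ : IsSymbols π χ)
  {k : ℕ} (hk : NotExceptional a f k D)
include h hχ

theorem chi_eq : ∀ j i, j ≠ i → χ j i = cs (π j) (π i) := by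
  intro j i hji
  have h1 := (dt_of_fac h).1.pq j
  exact (Pool.Agent.Y715.T.RecG.cs_of h1.prime h1.norm (hχ j i hji)).symm

theorem symm_symbols : (symbols e χ).IsSymm := SE_symm (dt_of_fac h).1 (chi_eq h hχ)

include hf hk

theorem density_ge (P : OK → Prop) (d : ℕ)
    (hP : ∀ D : OK, ∀ r, r < d → Bounds D r → P D) :
    ENNReal.ofReal (∑ s ∈ Finset.range d, dd k (symbols e χ) s) ≤
      lowerDensity a f P (k + 1) D := by
  obtain ⟨h1, h2⟩ := dt_of_fac h
  have h3 := loE_main a f hf (indicator P) (fun r => ∑ s ∈ Finset.range d, pt s r) (by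
    intro r
    rw [set_val]
    split_ifs <;> norm_num) (by
    intro n π e hdt h9 r hr
    have h2 := Pool.Agent.Results.MP_59f3ad_nt.CubicFieldsAllTwists.result.1 _ r
      (not_nine h9) (inv_of hdt hr)
    unfold indicator
    rw [set_val]
    by_cases h3 : r < d
    · rw [if_pos h3, if_pos (hP _ r h3 h2), ENNReal.ofReal_one]
    · rw [if_neg h3, ENNReal.ofReal_zero]
      exact zero_le) k h1 (chi_eq h hχ) (by rw [← h2]; exact hk)
  rw [EE_set, ← h2] at h3
  unfold lowerDensity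
  rw [lower_eq]
  exact h3

theorem mean_up :
    upperMean a f largest (k + 1) D ≤
      ENNReal.ofReal (∑ s ∈ Finset.range (n + k + 1), (s : ℝ) * dd k (symbols e χ) s) := by
  obtain ⟨h1, h2⟩ := dt_of_fac h
  have h3 := upE_main a f hf largest (fun r => (r : ℝ)) (by
    intro r
    positivity) (by
    intro n π e hdt h9 r hr
    have h2 := Pool.Agent.Results.MP_59f3ad_nt.CubicFieldsAllTwists.result.1 _ r
      (not_nine h9) (inv_of hdt hr)
    refine (facts h2).2.2.trans (le_of_eq ?_)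
    rw [← ENNReal.ofReal_natCast]) k h1 (chi_eq h hχ) (by rw [← h2]; exact hk)
  rw [EE_fun, ← h2] at h3
  rw [upper_eq]
  exact h3

end one

end proof

/-- The numbers for the `k`-fold twists of `D`. -/
def Numbers (a f : ℕ → ZMod 3) (k : ℕ) (D : OK) : Prop :=
  ENNReal.ofReal 0.639 ≤ lowerDensity a f Schneider k D ∧
  ENNReal.ofReal 0.9585 ≤ lowerDensity a f (RanksAtMost 1) k D ∧
  ENNReal.ofReal 0.998 ≤ lowerDensity a f (RanksAtMost 2) k D ∧
  upperMean a f largest k D ≤ ENNReal.ofReal 0.405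

open Pool.Agent.U150.RG in
open Pool.Agent.U687.MC hiding prob in
/-- **Schneider's conjecture in the successive prime twists of every field `ℚ(ω, ∛D)`.** -/
theorem result :
    (∀ (a f : ℕ → ZMod 3) (D : OK) (n : ℕ) (π : Fin n → OK) (e : Fin n → ZMod 3)
      (χ : Fin n → Fin n → ZMod 3) (k : ℕ), (∀ i, f i ≠ 0) →
      IsFac π e D → IsSymbols π χ → NotExceptional a f k D →
      ENNReal.ofReal (chain (symbols e χ) k 0) ≤ lowerDensity a f Schneider (k + 1) D ∧
      (∀ d : ℕ, ENNReal.ofReal (∑ r ∈ Finset.range (d + 1), chain (symbols e χ) k r) ≤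
        lowerDensity a f (RanksAtMost d) (k + 1) D) ∧
      upperMean a f largest (k + 1) D ≤ ENNReal.ofReal
        (∑ r ∈ Finset.range (n + k + 1), (r : ℝ) * chain (symbols e χ) k r) ∧
      (2 / 3) ^ (n + k) ≤ chain (symbols e χ) k 0 ∧
      (∀ d : ℕ, ∑ r ∈ Finset.range d, prob r - 3 * (2 ^ n + 1) * (2 / 3) ^ k ≤
        ∑ r ∈ Finset.range d, chain (symbols e χ) k r) ∧
      ∑ r ∈ Finset.range (n + k + 1), (r : ℝ) * chain (symbols e χ) k r ≤
        0.4042 + 3 * (2 ^ n + 1) * (2 / 3) ^ k) ∧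
    (∀ n : ℕ, ∃ k₀ : ℕ, ∀ k, k₀ ≤ k → ∀ (a f : ℕ → ZMod 3) (D : OK) (π : Fin n → OK)
      (e : Fin n → ZMod 3), (∀ i, f i ≠ 0) → IsFac π e D → NotExceptional a f k D →
      Numbers a f (k + 1) D) := by
  have part1 : ∀ (a f : ℕ → ZMod 3) (D : OK) (n : ℕ) (π : Fin n → OK) (e : Fin n → ZMod 3)
      (χ : Fin n → Fin n → ZMod 3) (k : ℕ), (∀ i, f i ≠ 0) →
      IsFac π e D → IsSymbols π χ → NotExceptional a f k D →
      ENNReal.ofReal (chain (symbols e χ) k 0) ≤ lowerDensity a f Schneider (k + 1) D ∧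
      (∀ d : ℕ, ENNReal.ofReal (∑ r ∈ Finset.range (d + 1), chain (symbols e χ) k r) ≤
        lowerDensity a f (RanksAtMost d) (k + 1) D) ∧
      upperMean a f largest (k + 1) D ≤ ENNReal.ofReal
        (∑ r ∈ Finset.range (n + k + 1), (r : ℝ) * chain (symbols e χ) k r) ∧
      (2 / 3) ^ (n + k) ≤ chain (symbols e χ) k 0 ∧
      (∀ d : ℕ, ∑ r ∈ Finset.range d, prob r - 3 * (2 ^ n + 1) * (2 / 3) ^ k ≤
        ∑ r ∈ Finset.range d, chain (symbols e χ) k r) ∧
      ∑ r ∈ Finset.range (n + k + 1), (r : ℝ) * chain (symbols e χ) k r ≤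
        0.4042 + 3 * (2 ^ n + 1) * (2 / 3) ^ k := by
    intro a f D n π e χ k hf h hχ hk
    have hS := symm_symbols h hχ
    rw [chain_eq hS k]
    refine ⟨?_, fun d => ?_, mean_up hf h hχ hk, chain_ge k _, fun d => dd_lower k hS d,
      dd_mean k hS (n + k + 1)⟩
    · have h1 := density_ge hf h hχ hk Schneider 1 (fun D r hr hF => (facts hF).1 (by omega))
      rwa [Finset.sum_range_one] at h1
    · exact density_ge hf h hχ hk (RanksAtMost d) (d + 1)
        (fun D r hr hF => (facts hF).2.1 d (by omega))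
  refine ⟨part1, fun n => ?_⟩
  obtain ⟨k₀, hk₀⟩ := numbers n
  refine ⟨k₀, fun k hk a f D π e hf h hN => ?_⟩
  obtain ⟨χ, hχ⟩ : ∃ χ, IsSymbols π χ := by
    refine ⟨fun j i => Pool.Agent.Y715.T.Rec.cs (π j) (π i), fun j i hji => ?_⟩
    have h1 := (dt_of_fac h).1
    exact Pool.Agent.Y715.T.RecG.cs_spec (h1.pq j).prime (h1.pq j).norm (h1.nd i j hji.symm)
  obtain ⟨b1, b2, b3, -, -, -⟩ := part1 a f D n π e χ k hf h hχ hN
  have hS := symm_symbols h hχ
  obtain ⟨c1, c2, c3, c4⟩ := hk₀ k hk (symbols e χ) hS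
  rw [chain_eq hS k] at b1 b2 b3
  have b4 := b2 1
  have b5 := b2 2
  simp only [Finset.sum_range_succ, Finset.sum_range_zero, zero_add] at b4 b5
  exact ⟨le_trans (ENNReal.ofReal_le_ofReal c1) b1, le_trans (ENNReal.ofReal_le_ofReal c2) b4,
    le_trans (ENNReal.ofReal_le_ofReal c3) b5, b3.trans (ENNReal.ofReal_le_ofReal (c4 _))⟩

end Pool.Agent.Results.MP_59f3ad_nt.PrimeTwistsOfEveryField
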