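import Pool.Agent.U725.RE.Fld

/-!
# Schneider's conjecture and radical extensions

Fix a prime `p`, an integer `r`, a number field `k` and a set `S` of places of `k`. For a finite extension
`F` of `k` let `Ш(F) = Ш¹(O_{F,S}, ℤ_p(r))`: the classes of continuous cocycles of the absolute Galois
group of `F` with values in `ℤ_p(r)` which are trivial on the inertia groups of the primes outside `S` and
on the decomposition groups of the places in `S` and of the archimedean places. We say that the conjecture
holds for `F` if `Ш(F)` is a torsion group (`ShaTorsion`). We show: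

1. A criterion for arbitrary subfields: let `E_i`, `i ∈ ι`, be finitely many subfields of `F` such that
   the indicator function of the inclusion `F ⊂ k̄` on the set of the embeddings of `F` over `k` is a rational
   combination of functions of the restrictions to the `E_i` (`Decomposes`). If the conjecture holds for the
   fields `E_i`, then it holds for `F`.
2. Radical extensions: let `F = E(a_1, ..., a_n)` with `a_i ≠ 0` and `a_i^m ∈ E`. No roots of unity in `E`
   are needed, the `a_i` can be roots of unity, the extension need not be Galois, it can have no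
   automorphisms, and its degree is arbitrary. If the conjecture holds for the simple radical extensions
   `E(b)`, `b = ∏ a_i^(e_i)`, `0 ≤ e_i < m`, then it holds for `F`.
3. If the conjecture is false for `F` and true for all smaller fields `k ⊆ E ⊂ F` (for example if `F` is a
   counterexample of least degree), then `F` is no such combination of smaller fields; in particular, if
   `F` is generated over a subfield `E` by radicals, then `F = E(b)` for one of the products `b` in (2).

For `r = 1` and `S` containing the places above `p` these are statements about Leopoldt's conjecture: it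
holds for all fields generated by radicals of elements of `E` (all roots of unity allowed) if it holds for
the fields generated by one radical.

Proof. Let `N` be the Galois group of a large normal field `K ⊇ F` and `V = ℚ_p ⊗ Ш(K)`, so that
`ℚ_p ⊗ Ш(F) = V^{Gal(K/F)}` (`Pool.Agent.U10.Shr`, by helper10). If the indicator function of `Gal(K/F)`
on `Gal(K/k)` is the sum of functions `f_i` invariant under right translations by `Gal(K/E_i)`, and `x` is
fixed by `Gal(K/F)`, then `x` is, up to a factor, the sum of the `∑ f_i(g) g x`, which are combinations of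
the conjugates of the vectors `∑_{h ∈ Gal(K/E_i)} h x = 0`. For radical extensions the numbers
`g(b) / b` are roots of unity, their sum over the exponents is `0` or `m^n`, and a `ℚ`-linear function
makes them rational. The definitions of `ShaTorsion` are those of `MP_59f3ad_nt.RealOrCM` (helper152).
-/

set_option autoImplicit false

namespace Pool.Agent.Results.MP_59f3ad_nt.RadicalExtensions

open Module IntermediateField Pool.Agent.U10.Shr Pool.Agent.U152.RK Pool.Agent.U725.RE

section gen

variable {k : Type} [Field k]

/-- The function `f` on `Gal(k̄/K)` is a coboundary for `ℤ_p(r)` on the intersection with `D`. -/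
def CobOn (p : ℕ) [Fact p.Prime] (r : ℤ) (K : IntermediateField k (AlgebraicClosure k))
    (f : K.fixingSubgroup → ℤ_[p]) (D : Subgroup (AlgebraicClosure k ≃ₐ[k] AlgebraicClosure k)) :
    Prop :=
  ∃ m : ℤ_[p], ∀ σ : K.fixingSubgroup, σ.1 ∈ D → f σ = chi p r σ.1 * m - m

/-- `f` is a continuous cocycle of `Gal(k̄/K)` with values in `ℤ_p(r)`, a coboundary on the inertia
groups outside `S` (so it is zero there, if the places over `p` are in `S`, as these groups act
trivially) and on the decomposition groups of the places over `S` and the archimedean places. -/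
def IsShaCocycle (p : ℕ) [Fact p.Prime] (r : ℤ) (S : Set (ValuationSubring k))
    (K : IntermediateField k (AlgebraicClosure k)) (f : K.fixingSubgroup → ℤ_[p]) : Prop :=
  (∀ σ τ : K.fixingSubgroup, f (σ * τ) = f σ + chi p r σ.1 * f τ) ∧
  Continuous f ∧
  (∀ V : ValuationSubring (AlgebraicClosure k),
    V.comap (algebraMap k (AlgebraicClosure k)) ∉ S → CobOn p r K f (ine k V)) ∧
  (∀ V : ValuationSubring (AlgebraicClosure k),
    V.comap (algebraMap k (AlgebraicClosure k)) ∈ S → CobOn p r K f (dec k V)) ∧
  (∀ φ : AlgebraicClosure k →+* ℂ, CobOn p r K f (arc k φ))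

/-- The group `Ш¹(O_{K,S}, ℤ_p(r))` is a torsion group: every cocycle with these local conditions has a
multiple by a nonzero `p`-adic integer which is a coboundary. -/
def ShaTorsion (p : ℕ) [Fact p.Prime] (r : ℤ) (S : Set (ValuationSubring k))
    (K : IntermediateField k (AlgebraicClosure k)) : Prop :=
  ∀ f : K.fixingSubgroup → ℤ_[p], IsShaCocycle p r S K f →
    ∃ a : ℤ_[p], a ≠ 0 ∧ ∃ m : ℤ_[p], ∀ σ : K.fixingSubgroup, a * f σ = chi p r σ.1 * m - m

theorem isSha_iff (p : ℕ) [Fact p.Prime] (r : ℤ) (S : Set (ValuationSubring k))
    (K : IntermediateField k (AlgebraicClosure k)) (f : K.fixingSubgroup → ℤ_[p]) :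
    IsShaCocycle p r S K f ↔ f ∈ (twData p r S).Z K.fixingSubgroup := by
  constructor
  · rintro ⟨h1, h2, h3, h4, h5⟩
    refine ⟨h1, h2, ?_⟩
    rintro D (⟨V, hV, rfl⟩ | ⟨V, hV, rfl⟩ | ⟨φ, rfl⟩)
    · exact h4 V hV
    · exact h3 V hV
    · exact h5 φ
  · rintro ⟨h1, h2, h3⟩
    exact ⟨h1, h2, fun V hV => h3 _ (Or.inr (Or.inl ⟨V, hV, rfl⟩)),
      fun V hV => h3 _ (Or.inl ⟨V, hV, rfl⟩), fun φ => h3 _ (Or.inr (Or.inr ⟨φ, rfl⟩))⟩

theorem shaTorsion_iff (p : ℕ) [Fact p.Prime] (r : ℤ) (S : Set (ValuationSubring k))
    (K : IntermediateField k (AlgebraicClosure k)) :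
    ShaTorsion p r S K ↔ Zr (twData p r S) K.fixingSubgroup := by
  have hmk : ∀ (c : ℤ_[p]) (f : (twData p r S).Z K.fixingSubgroup),
      c • (Submodule.Quotient.mk f : (twData p r S).Sh K.fixingSubgroup) = 0 ↔
        ∃ m : ℤ_[p], ∀ σ : K.fixingSubgroup, c * f.1 σ = chi p r σ.1 * m - m := by
    intro c f
    rw [← Submodule.Quotient.mk_smul, Submodule.Quotient.mk_eq_zero]
    exact Iff.rfl
  constructor
  · intro h x
    induction x using Submodule.Quotient.induction_on with
    | H f =>
      obtain ⟨c, hc, h1⟩ := h f.1 ((isSha_iff p r S K _).2 f.2)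
      exact ⟨c, hc, (hmk c f).2 h1⟩
  · intro h f hf
    obtain ⟨c, hc, h1⟩ := h (Submodule.Quotient.mk ⟨f, (isSha_iff p r S K f).1 hf⟩)
    exact ⟨c, hc, (hmk c _).1 h1⟩

end gen

/-- (1) the criterion for finitely many subfields; (2) radical extensions; (3) counterexamples all of
whose smaller fields satisfy the conjecture. -/
theorem result (p : ℕ) [Fact p.Prime] (r : ℤ) (k : Type) [Field k] [NumberField k]
    (S : Set (ValuationSubring k)) (F : IntermediateField k (AlgebraicClosure k))
    (hF : FiniteDimensional k F) :
    (∀ (ι : Type) [Fintype ι] (E : ι → IntermediateField k (AlgebraicClosure k)), (∀ i, E i ≤ F) →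
      Decomposes F E → (∀ i, ShaTorsion p r S (E i)) → ShaTorsion p r S F) ∧
    (∀ (E : IntermediateField k (AlgebraicClosure k)) (m n : ℕ) (a : Fin n → AlgebraicClosure k),
      IsRadical E F m a → (∀ e : Fin n → Fin m, ShaTorsion p r S (simple E a e)) →
        ShaTorsion p r S F) ∧
    (¬ ShaTorsion p r S F → (∀ E < F, ShaTorsion p r S E) →
      (∀ (ι : Type) [Fintype ι] (E : ι → IntermediateField k (AlgebraicClosure k)), (∀ i, E i < F) →
        ¬ Decomposes F E) ∧
      ∀ (E : IntermediateField k (AlgebraicClosure k)) (m n : ℕ) (a : Fin n → AlgebraicClosure k),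
        IsRadical E F m a → ∃ e : Fin n → Fin m, simple E a e = F) := by
  have h1 : ∀ (ι : Type) [Fintype ι] (E : ι → IntermediateField k (AlgebraicClosure k)),
      (∀ i, E i ≤ F) → Decomposes F E → (∀ i, ShaTorsion p r S (E i)) → ShaTorsion p r S F := by
    intro ι _ E hE hd h
    rw [shaTorsion_iff]
    exact zr_of_decomposes _ hE hd fun i => (shaTorsion_iff p r S _).1 (h i)
  have h2 : ∀ (E : IntermediateField k (AlgebraicClosure k)) (m n : ℕ)
      (a : Fin n → AlgebraicClosure k), IsRadical E F m a →
      (∀ e : Fin n → Fin m, ShaTorsion p r S (simple E a e)) → ShaTorsion p r S F :=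
    fun E m n a ha h => h1 _ _ (fun e => simple_le ha e) (decomposes_rad ha) h
  refine ⟨h1, h2, fun hno hall => ⟨fun ι _ E hE hd => ?_, fun E m n a ha => ?_⟩⟩
  · exact hno (h1 ι E (fun i => (hE i).le) hd fun i => hall _ (hE i))
  · by_contra hcon
    push Not at hcon
    exact hno (h2 E m n a ha fun e => hall _ (lt_of_le_of_ne (simple_le ha e) (hcon e)))

end Pool.Agent.Results.MP_59f3ad_nt.RadicalExtensions
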