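import Pool.Agent.U152.RK.Rat

/-!
# Schneider's conjecture: reduction to fields with a real place and CM fields

Fix a prime `p`, an integer `r` and a set `S` of prime numbers (`p ∈ S` in the problem). For a number
field `K` let `Ш(K) = Ш¹(O_{K,S}, ℤ_p(r))`: the classes of continuous cocycles of the absolute Galois
group of `K` with values in `ℤ_p(r)` which are trivial on the inertia groups of the primes outside `S`
and on the decomposition groups of the primes in `S` and of the archimedean places. We say that the
conjecture holds for `K` if `Ш(K)` is a torsion group (`ShaTorsion`). We show: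

1. Let `F` be a number field. For a complex conjugation `c` (for an embedding `ι`) let
   `F_c = (F · c F) ∩ ℝ`, a field with a real place. If the conjecture holds for the fields `F_c`, then
   it holds for `F` if and only if it holds for the CM fields contained in `F`; in particular it holds
   for `F` if `F` contains no CM field.
2. If `F` has no real place and degree `d`, then `[F_c : ℚ] ≤ d (d - 1) / 2`. So, for `d ≥ 3`, if the
   conjecture holds for the number fields with a real place of degree `≤ d (d - 1) / 2` and for the CM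
   fields of degree `≤ d`, it holds for all number fields of degree `≤ d`.
3. The conjecture holds for all number fields if and only if it holds for the number fields `F` with a
   real place and the CM fields `F` such that all groups of automorphisms of `F` of order `q l` (`q`,
   `l` primes) are cyclic.
4. For any base field `k` and any set `S` of places of `k`: if the conjecture is false for a finite
   extension `F / k` and true for all smaller extensions of `k` (for example if `F` is a counterexample
   of least degree), then all the subgroups of order `q l` of `Aut(F / k)` are cyclic.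

The statements hold for all `r`; for `r = 1` and `S ∋ p` they are statements about Leopoldt's
conjecture.

Proof. Let `N` be the Galois group of a large normal field `K ⊇ F` and `V = ℚ_p ⊗ Ш(K)`, so that
`ℚ_p ⊗ Ш(F) = V^{Gal(K/F)}` (`Pool.Agent.U10.Shr`). If `x ∈ V` is fixed by `Gal(K/F)` and `c` is a
complex conjugation then `x + c x` is fixed by `c` and by `Gal(K / F · c F)`, so it is zero if the
conjecture holds for `F_c`. If this is so for all `c` then all the complex conjugations act as `-1` on
`x`, the products `c c'` fix `x`, and `x` comes from the subfield of `F` of the elements fixed by all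
the products `c c'`, which is a totally real field or a CM field. In (4) the group `Aut(F / k)` acts on
`ℚ_p ⊗ Ш(F)` such that only `1` has nonzero fixed vectors; a noncyclic group of order `q l` is the
union of its subgroups of prime order, which meet in `1`, and cannot act like this.
-/

set_option autoImplicit false

namespace Pool.Agent.Results.MP_59f3ad_nt.RealOrCM

open Module IntermediateField Pool.Agent.U10.Shr Pool.Agent.U152.RK
open Pool.Agent.Q60.MU (Qb)
open Pool.Agent.W5h77.MB (realSub)
open scoped ComplexConjugate

section gen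

variable {k : Type} [Field k]

/-- The function `f` on `Gal(k̄/K)` is a coboundary for `ℤ_p(r)` on the intersection with `D`. -/
def CobOn (p : ℕ) [Fact p.Prime] (r : ℤ) (K : IntermediateField k (AlgebraicClosure k))
    (f : K.fixingSubgroup → ℤ_[p]) (D : Subgroup (AlgebraicClosure k ≃ₐ[k] AlgebraicClosure k)) :
    Prop :=
  ∃ m : ℤ_[p], ∀ σ : K.fixingSubgroup, σ.1 ∈ D → f σ = chi p r σ.1 * m - m

/-- `f` is a continuous cocycle of `Gal(k̄/K)` with values in `ℤ_p(r)`, a coboundary on the inertia
groups outside `S` (so it is zero there, if the places over `p` are in `S`, as these groups act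
trivially) and on the decomposition groups of the places over `S` and the archimedean places. -/
def IsShaCocycle (p : ℕ) [Fact p.Prime] (r : ℤ) (S : Set (ValuationSubring k))
    (K : IntermediateField k (AlgebraicClosure k)) (f : K.fixingSubgroup → ℤ_[p]) : Prop :=
  (∀ σ τ : K.fixingSubgroup, f (σ * τ) = f σ + chi p r σ.1 * f τ) ∧
  Continuous f ∧
  (∀ V : ValuationSubring (AlgebraicClosure k),
    V.comap (algebraMap k (AlgebraicClosure k)) ∉ S → CobOn p r K f (ine k V)) ∧
  (∀ V : ValuationSubring (AlgebraicClosure k),
    V.comap (algebraMap k (AlgebraicClosure k)) ∈ S → CobOn p r K f (dec k V)) ∧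
  (∀ φ : AlgebraicClosure k →+* ℂ, CobOn p r K f (arc k φ))

/-- The group `Ш¹(O_{K,S}, ℤ_p(r))` is a torsion group: every cocycle with these local conditions has a
multiple by a nonzero `p`-adic integer which is a coboundary. -/
def ShaTorsion (p : ℕ) [Fact p.Prime] (r : ℤ) (S : Set (ValuationSubring k))
    (K : IntermediateField k (AlgebraicClosure k)) : Prop :=
  ∀ f : K.fixingSubgroup → ℤ_[p], IsShaCocycle p r S K f →
    ∃ a : ℤ_[p], a ≠ 0 ∧ ∃ m : ℤ_[p], ∀ σ : K.fixingSubgroup, a * f σ = chi p r σ.1 * m - m

theorem isSha_iff (p : ℕ) [Fact p.Prime] (r : ℤ) (S : Set (ValuationSubring k))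
    (K : IntermediateField k (AlgebraicClosure k)) (f : K.fixingSubgroup → ℤ_[p]) :
    IsShaCocycle p r S K f ↔ f ∈ (twData p r S).Z K.fixingSubgroup := by
  constructor
  · rintro ⟨h1, h2, h3, h4, h5⟩
    refine ⟨h1, h2, ?_⟩
    rintro D (⟨V, hV, rfl⟩ | ⟨V, hV, rfl⟩ | ⟨φ, rfl⟩)
    · exact h4 V hV
    · exact h3 V hV
    · exact h5 φ
  · rintro ⟨h1, h2, h3⟩
    exact ⟨h1, h2, fun V hV => h3 _ (Or.inr (Or.inl ⟨V, hV, rfl⟩)),
      fun V hV => h3 _ (Or.inl ⟨V, hV, rfl⟩), fun φ => h3 _ (Or.inr (Or.inr ⟨φ, rfl⟩))⟩

theorem shaTorsion_iff (p : ℕ) [Fact p.Prime] (r : ℤ) (S : Set (ValuationSubring k))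
    (K : IntermediateField k (AlgebraicClosure k)) :
    ShaTorsion p r S K ↔ Zr (twData p r S) K.fixingSubgroup := by
  have hmk : ∀ (c : ℤ_[p]) (f : (twData p r S).Z K.fixingSubgroup),
      c • (Submodule.Quotient.mk f : (twData p r S).Sh K.fixingSubgroup) = 0 ↔
        ∃ m : ℤ_[p], ∀ σ : K.fixingSubgroup, c * f.1 σ = chi p r σ.1 * m - m := by
    intro c f
    rw [← Submodule.Quotient.mk_smul, Submodule.Quotient.mk_eq_zero]
    exact Iff.rfl
  constructor
  · intro h x
    induction x using Submodule.Quotient.induction_on with
    | H f =>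
      obtain ⟨c, hc, h1⟩ := h f.1 ((isSha_iff p r S K _).2 f.2)
      exact ⟨c, hc, (hmk c f).2 h1⟩
  · intro h f hf
    obtain ⟨c, hc, h1⟩ := h (Submodule.Quotient.mk ⟨f, (isSha_iff p r S K f).1 hf⟩)
    exact ⟨c, hc, (hmk c _).1 h1⟩

/-- All the subgroups of order `q l`, for `q` and `l` prime, of the group of the automorphisms of `F`
over `k` are cyclic. -/
def CyclicPQ (F : IntermediateField k (AlgebraicClosure k)) : Prop :=
  ∀ (q l : ℕ) (B : Subgroup (F ≃ₐ[k] F)), q.Prime → l.Prime → Nat.card B = q * l → IsCyclic B

end gen

/-- `F` is a number field with a real place: the elements of `F` are real for some embedding. -/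
def HasRealPlace (F : IntermediateField ℚ Qb) : Prop :=
  ∃ φ : Qb →+* ℂ, ∀ x ∈ F, conj (φ x) = φ x

/-- `F` is a CM field: it has no real place, and the complex conjugation induces an automorphism
of `F` which does not depend on the embedding. -/
def IsCM (F : IntermediateField ℚ Qb) : Prop :=
  ¬ HasRealPlace F ∧ ∀ x ∈ F, ∃ y ∈ F, ∀ φ : Qb →+* ℂ, φ y = conj (φ x)

/-- `c` is the complex conjugation of the field of the algebraic numbers for the embedding `ι`. -/
def IsConj (ι : Qb →+* ℂ) (c : Gal(Qb/ℚ)) : Prop := ∀ x, ι (c x) = conj (ι x)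

/-- **Schneider's conjecture for a number field `F` follows from the conjecture for the fields
`(F · cF) ∩ ℝ` and the CM subfields of `F`; the conjecture for all number fields follows from the
conjecture for number fields with a real place and for CM fields, without noncyclic groups of
automorphisms of order `q l`.** -/
theorem result (p : ℕ) [Fact p.Prime] (r : ℤ) :
    (∀ S : Set (ValuationSubring ℚ),
      (∀ F : IntermediateField ℚ Qb, FiniteDimensional ℚ F →
        (∀ (ι : Qb →+* ℂ) (c : Gal(Qb/ℚ)), IsConj ι c →
          ShaTorsion p r S ((F ⊔ F.map c.toAlgHom) ⊓ realSub ι)) →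
        (ShaTorsion p r S F ↔ ∀ E ≤ F, IsCM E → ShaTorsion p r S E)) ∧
      (∀ d : ℕ, 3 ≤ d →
        (∀ E : IntermediateField ℚ Qb, FiniteDimensional ℚ E →
          (HasRealPlace E ∧ 2 * finrank ℚ E ≤ d * (d - 1) ∨ IsCM E ∧ finrank ℚ E ≤ d) →
            ShaTorsion p r S E) →
        ∀ F : IntermediateField ℚ Qb, FiniteDimensional ℚ F → finrank ℚ F ≤ d →
          ShaTorsion p r S F) ∧
      ((∀ F : IntermediateField ℚ Qb, FiniteDimensional ℚ F → ShaTorsion p r S F) ↔
        ∀ F : IntermediateField ℚ Qb, FiniteDimensional ℚ F → (HasRealPlace F ∨ IsCM F) →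
          CyclicPQ F → ShaTorsion p r S F)) ∧
    ∀ (k : Type) [Field k] [NumberField k] (S : Set (ValuationSubring k))
      (F : IntermediateField k (AlgebraicClosure k)), FiniteDimensional k F →
      ¬ ShaTorsion p r S F → (∀ E < F, ShaTorsion p r S E) → CyclicPQ F := by
  refine ⟨fun S => ?_, fun k _ _ S F hF h1 h2 => ?_⟩
  · have hS : ∀ F : IntermediateField ℚ Qb, ShaTorsion p r S F ↔ ZF (twData p r S) F :=
      fun F => shaTorsion_iff p r S F
    refine ⟨fun F hF h => ⟨fun h1 E hE _ => (hS E).2 (zf_mono (twData p r S) hE ((hS F).1 h1)),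
      fun h1 => (hS F).2 (rat_step (twData p r S) F (fun ι c hc => (hS _).1 (h ι c hc))
        fun E hE hcm => (hS E).1 (h1 E hE hcm))⟩,
      fun d hd h F hF hFd => (hS F).2 (rat_deg (twData p r S) hd
        (fun E hE h1 h2 => (hS E).1 (h E hE (Or.inl ⟨h1, h2⟩)))
        (fun E hE h1 h2 => (hS E).1 (h E hE (Or.inr ⟨h1, h2⟩))) F hFd),
      fun h F hF _ _ => h F hF, fun h F hF => (hS F).2 ?_⟩
    exact (rat_all (twData p r S)).2 (fun F hF h2 h3 => (hS F).1 (h F hF h2 h3)) F hF
  · rw [shaTorsion_iff] at h1
    exact cyc_least (twData p r S) h1 fun E hE => (shaTorsion_iff p r S _).1 (h2 E hE)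

end Pool.Agent.Results.MP_59f3ad_nt.RealOrCM
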